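import Mathlib

namespace Pool.Agent.Results.MP_2432f5_co.Neg

/-- `w` is a word over the alphabet `A` (letters are natural numbers). -/
def Over (A : Finset ℕ) (w : List ℕ) : Prop := ∀ a ∈ w, a ∈ A

/-- `w` encounters the pattern `p` over `D`, for words over `S`: some non-erasing morphism
`D* → S*` fixing the letters of `D ∩ S` maps `p` to a factor of `w`. -/
def Encounters (S D : Finset ℕ) (p w : List ℕ) : Prop :=
  ∃ h : ℕ → List ℕ, (∀ x ∈ D, h x ≠ [] ∧ Over S (h x)) ∧ (∀ a ∈ D, a ∈ S → h a = [a]) ∧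
    p.flatMap h <:+: w

/-- `u` is a maximal `p`-free word over `S`. -/
def MaxFree (S D : Finset ℕ) (p u : List ℕ) : Prop :=
  Over S u ∧ ¬ Encounters S D p u ∧ ∀ a ∈ S, ∀ b ∈ S, Encounters S D p (a :: u ++ [b])

lemma inner {a : ℕ} {v u : List ℕ} (h1 : v.head? ≠ some a) (h2 : v.getLast? ≠ some a)
    (h : v <:+: a :: u ++ [a]) : v <:+: u := by
  rw [List.cons_append, List.infix_cons_iff] at h
  rcases h with h | h
  · rcases v with _ | ⟨c, v⟩
    · exact List.nil_infix
    · rw [List.cons_prefix_cons] at h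
      simp [h.1] at h1
  · rw [List.infix_concat_iff] at h
    rcases h with h | h
    · rcases List.eq_nil_or_concat v with rfl | ⟨v', c, rfl⟩
      · exact List.nil_infix
      · obtain ⟨t, ht⟩ := h
        have h3 := congrArg List.getLast? ht
        simp at h3 h2
        exact absurd h3 h2
    · exact h

lemma key (S D : Finset ℕ) (p : List ℕ) (a c d : ℕ) (hp : Over D p) (ha : a ∈ S) (hc : c ∈ S)
    (hd : d ∈ S) (hca : c ≠ a) (hda : d ≠ a) (h1 : p.head? = some c) (h2 : p.getLast? = some d)
    (u : List ℕ) : ¬ MaxFree S D p u := by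
  rintro ⟨-, hf, hm⟩
  obtain ⟨h, hh1, hh2, hh3⟩ := hm a ha a ha
  refine hf ⟨h, hh1, hh2, inner ?_ ?_ hh3⟩
  · rcases p with _ | ⟨c', p⟩
    · simp
    · simp only [List.head?_cons, Option.some.injEq] at h1
      subst h1
      rw [List.flatMap_cons, hh2 c' (hp c' (by simp)) hc]
      simpa using hca
  · rcases List.eq_nil_or_concat p with rfl | ⟨p', d', rfl⟩
    · simp
    · simp only [List.concat_eq_append, List.getLast?_append, List.getLast?_singleton,
        Option.some_or, Option.some.injEq] at h2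
      subst h2
      rw [List.concat_eq_append, List.flatMap_append, List.flatMap_singleton,
        hh2 d' (hp d' (by simp)) hd]
      simpa using hda

theorem result :
    (∀ (S D : Finset ℕ) (p : List ℕ) (a c d : ℕ), Over D p → a ∈ S → c ∈ S → d ∈ S → c ≠ a → d ≠ a →
      p.head? = some c → p.getLast? = some d → ∀ u, ¬ MaxFree S D p u) ∧
    ¬ (∀ (S D : Finset ℕ) (p : List ℕ), p ≠ [] → Over D p → ∀ w, Over S w →
      ¬ Encounters S D p w → ∃ u, MaxFree S D p u ∧ w <:+: u) := by
  refine ⟨key, fun H => ?_⟩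
  obtain ⟨u, hu, -⟩ := H {0, 1} {1, 2} [1, 2, 2, 1] (by simp) (by simp [Over]) [0] (by simp [Over])
    (by
      rintro ⟨h, -, h2, h3⟩
      have e := h2 1 (by simp) (by simp)
      have := h3.subset (a := 1) (by simp [e])
      simp at this)
  exact key {0, 1} {1, 2} [1, 2, 2, 1] 0 1 1 (by simp [Over]) (by simp) (by simp) (by simp)
    (by simp) (by simp) rfl rfl u hu

end Pool.Agent.Results.MP_2432f5_co.Neg
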